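import Pool.Agent.Zk25.GP.MainG

/-!
# Large transcendence degree at all points of a space outside a set of bounded dimension

Let `β_1, ..., β_M` be complex numbers which are linearly independent over `ℚ`, and consider the `M` numbers
`exp (β_1 y), ..., exp (β_M y)` for *one* complex number `y`. Axiom (SC) of the pseudo-exponential field (Schanuel's
conjecture, if it holds for the complex exponential field) says that `β_i y, exp (β_i y)` generate a field of
transcendence degree at least `M`, for all `y ≠ 0`. We fix a
transcendence degree `r` and assume that `M ≥ 3 ^ ((r + 1) ^ 3) + r - 1`. Then at least `r` of the numbers `exp (β_i y)` are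
algebraically independent, for almost all points `y` of every `ℚ`-space: if `x_1, ..., x_N` are linearly
independent over `ℚ`, this holds for all `y = ∑ k_j x_j` with `k_j` in given sets of `W` rational numbers, with at most
`c W ^ (C - 1)` exceptions, where `C = 3 ^ ((r + 1) ^ 3)` does not depend on `N`. So the exceptional set has bounded
dimension, in spaces of arbitrary dimension. The result holds also for the numbers `exp (z_i + β_i y)` with
arbitrary `z_i`, and for algebraic independence over a field `L` of finite transcendence degree `s` over `ℚ`, with
`C = 3 ^ ((s + r + 1) ^ 3)`. The constant `c` depends only on `r` and `N`. There is no technical hypothesis.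

The known theorems on large transcendence degree (and `NoTechnicalHypothesis`) are about the field generated by *all*
the numbers `exp (β_i x_j)`; here it is shown that `r` algebraically independent numbers can be found in almost every
`M`-tuple `exp (β_i y)`.

The proof. For derivations `D_0, ..., D_ρ` of `ℂ` over `L` the determinants of the matrices
`(D_a exp (w_i) / exp (w_i))`, `w_i = z_i + β_i y`, `y = ∑ k_j x_j`, are polynomials in `k` of degree at most `ρ + 1`, and
they vanish if the `exp (w_i)` have transcendence degree at most `ρ` over `L` (`minor_zero`). Let `k` be a point where
the transcendence degree is exactly `ρ < r`, and consider a rational vector `τ` in the common kernel of the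
differentials at `k` of all these polynomials (`Fam_tan`). For `v = ∑ τ_j x_j` and a transcendence basis
`exp (w_i)`, `i ∈ I`, of the field `K` generated by the `exp (w_i)` we get, for all derivations `D` of `ℂ` over `K`
and all `i`, `D exp (β_i v) / exp (β_i v) = ∑ γ_ib D exp (β_b v) / exp (β_b v)`, `b ∈ I`, where the `γ_ib` are
algebraic over `K` and do not depend on `τ`. A theorem of Ax type (residues at places, `AX.rational_relation`) shows
that after applying a functional to the `γ_ib` we get a *rational* relation: there are `M - ρ` linearly independent
rational combinations `β'_i` of the `β_i`, which do not depend on `τ`, such that `exp (β'_i v)` is algebraic over `K` for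
all these `v` (`tangent`). By the theorem `NoTechnicalHypothesis` the space of all `τ` has dimension less than `C`
(`kernel_small`). So the exceptional points with transcendence degree `ρ` are points of a variety, defined over
`ℚ`, where the tangent space has dimension less than `C`. The number of such points in a box is estimated by a theorem
of Bezout type for nondegenerate zeros, which is proved by a deformation over `k[t]` and an approximate form of
Hensel's lemma (`bez`, `count`).
-/

set_option autoImplicit false

namespace Pool.Agent.Results.MP_209724_lc.ExceptionsOfBoundedDimension

open Classical in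
/-- **Main result.** -/
theorem result (L : IntermediateField ℚ ℂ) (s r M N W : ℕ) (hL : Algebra.trdeg ℚ L ≤ s)
    (hM : 3 ^ ((s + r + 1) ^ 3) + r ≤ M + 1) (z β : Fin M → ℂ) (hβ : LinearIndependent ℚ β)
    (x : Fin N → ℂ) (hx : LinearIndependent ℚ x) (hW : 1 ≤ W) (A : Fin N → Finset ℚ)
    (hA : ∀ j, (A j).card ≤ W) :
    ((Fintype.piFinset A).filter fun k => ∀ I : Fin r → Fin M, ¬ AlgebraicIndependent L
      (fun b => Complex.exp (z (I b) + β (I b) * ∑ j, (k j : ℂ) * x j))).card ≤
      r * (N * (r + 1) ^ (N + 1)) ^ N * W ^ (3 ^ ((s + r + 1) ^ 3) - 1) :=
  Pool.Agent.Zk25.GP.few hL hM z hβ hx hW A hA

end Pool.Agent.Results.MP_209724_lc.ExceptionsOfBoundedDimension
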