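import Pool.Agent.Zk43.ExpOne
import Pool.Agent.X39.Near.Ax
import Pool.Agent.X39.Near.DepInt

/-!
# Exponential points of families of varieties are generic at ALL algebraic parameters near every number outside ONE set
of dimension zero

The axiom (SEAC) (i) asks that a free rotund variety `V` in `G_n` has exponential points `(z, exp z)` which are generic
in `V` over a finitely generated field over which `V` is defined. For varieties of dimension `n` this means that `n` of
the coordinates are algebraically independent over this field.

Let `V_x` be varieties of dimension `n` in `G_n` which depend algebraically on a complex parameter `x`, and let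
`(z(x), exp(z(x)))` be exponential points of `V_x` which depend analytically on `x` (for instance regular zeros of a
system of exponential polynomials, by the implicit function theorem), such that no nontrivial combination of the
functions `z_i` with integral coefficients is constant. Let `b_1, …, b_n` be coordinates such that the other coordinates
of the points `(z(x), exp(z(x)))` are algebraic over them and `x` (a transcendence basis of the function field of the
component of the variety). Several exponential points of the same variety can be considered together: they form an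
exponential point of a power of the variety.

We consider any SEQUENCE of such families, of any dimensions (for instance all families of exponential points of all
varieties over the algebraic numbers, on discs with rational centres and radii), and any sequence `ξ_0, ξ_1, …` of complex
numbers, for instance the elements of any countable exponential field. We show that there is ONE set `E` of Hausdorff
dimension zero such that for every complex number `x` outside of `E` the exponential points of every family of the
sequence on a neighbourhood of `x` are generic, in bounded degree and height and relative to `ξ_0, …, ξ_(g-1)`, at ALL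
algebraic parameters `t` of any number field `F` which are near to `x`: for all `d`, `A`, `g` and `ω > 0` there is `B`
such that for all large `T` and all `t ∈ F` of height at most `T` with `|t - x| ≤ T ^ (-ω)` the coordinates `b_1, …, b_n`
at `t` satisfy no approximate relation, up to `T ^ (-B)`, of degree at most `d`, whose coefficients are polynomials in
`ξ_0, …, ξ_(g-1)` of degree at most `d` with coefficients in the integers of `F` with conjugates at most `T ^ A`. In
particular every nonzero polynomial over `ℤ` of degree at most `d` and height at most `T ^ A` has a value of absolute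
value more than `T ^ (-B)` at these coordinates. If `x` is real and irrational, this holds at the convergents `t` of the
continued fraction of `x`, at the level of their denominators, from some point on.

The starting result `MP_209724_lc.GenericSolutions` is about 100 percent of the parameters of bounded height over one
fixed number field; here there are no exceptional parameters.

Proof: the coordinates are algebraically independent over `ℂ(x)` (Ax's theorem, `Pool.Agent.N207.AX.exp_ind`), there are
at most `C T ^ ε` exceptional parameters of height `T`, for every `ε > 0`, and so the points which are close to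
exceptional parameters form a set of dimension zero (`Pool.Agent.X39.Near.near_dep`).
-/

set_option autoImplicit false

open NumberField

namespace Pool.Agent.Results.MP_209724_lc.GenericNearEveryNumber

/-- The coordinates `z_i(x)` and `exp(z_i(x))` of the exponential point `(z(x), exp(z(x)))` of `G_n`. -/
noncomputable def point {n : ℕ} (z : Fin n → ℂ → ℂ) (i : Fin n ⊕ Fin n) (x : ℂ) : ℂ :=
  Sum.elim (fun i => z i x) (fun i => Complex.exp (z i x)) i

/-- The substitution of the number `x` and of the numbers `a_1, …, a_n` in a polynomial in `n + 1` variables; the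
variable `none` is replaced by `x`. -/
noncomputable def subst {n : ℕ} (x : ℂ) (a : Fin n → ℂ) : MvPolynomial (Option (Fin n)) ℂ →+* ℂ :=
  MvPolynomial.eval fun o : Option (Fin n) => o.elim x a

/-- **Exponential points of a family of `n`-dimensional varieties in `G_n`**, with the coordinates `b_1, …, b_n`. -/
structure Family {n : ℕ} (U : Set ℂ) (z : Fin n → ℂ → ℂ) (b : Fin n → Fin n ⊕ Fin n) : Prop where
  isOpen : IsOpen U
  isPreconnected : IsPreconnected U
  analytic : ∀ i, AnalyticOnNhd ℂ (z i) U
  /-- no nontrivial combination of the `z_i` with integral coefficients is constant -/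
  free : ∀ (m : Fin n → ℤ) (c : ℂ), (∀ x ∈ U, ∑ i, (m i : ℂ) * z i x = c) → m = 0
  /-- every coordinate satisfies on `U` a polynomial equation `Q = 0` whose coefficients are polynomials in the
  parameter and the coordinates `b_1, …, b_n`, not all zero at all points of `U` -/
  finite : ∀ i, ∃ Q : Polynomial (MvPolynomial (Option (Fin n)) ℂ),
    (∃ x ∈ U, Q.map (subst x fun k => point z (b k) x) ≠ 0) ∧
    ∀ x ∈ U, Q.eval₂ (subst x fun k => point z (b k) x) (point z i x) = 0

/-- The element `t` of `F` is a quotient of integers all of whose conjugates have absolute value at most `T`. -/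
def HeightLe (F : Type) [Field F] [NumberField F] (T : ℝ) (t : F) : Prop :=
  ∃ a b : 𝓞 F, b ≠ 0 ∧ (∀ φ : F →+* ℂ, ‖φ a‖ ≤ T ∧ ‖φ b‖ ≤ T) ∧ t = a / b

/-- The value at `ξ_0, …, ξ_(g-1)` of a polynomial with coefficients in the integers of the number field `F ⊂ ℂ`. -/
noncomputable def value {g : ℕ} (ξ : Fin g → ℂ) (F : Type) [Field F] (ι : F →+* ℂ) (c : MvPolynomial (Fin g) (𝓞 F)) : ℂ :=
  MvPolynomial.eval₂ (ι.comp (algebraMap (𝓞 F) F)) ξ c

/-- There is no relation of degree at most `d` between the numbers `v`, relative to `ξ_0, …, ξ_(g-1)`, of height at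
most `H`, not even up to `δ`. (1) The polynomials `P` of degree at most `d` in each variable, whose coefficients are the
values at `ξ_0, …, ξ_(g-1)` of polynomials of degree at most `d` in each variable with coefficients in the integers of `F`
all of whose conjugates are at most `H`, take at `v` a value which is more than `δ` times each nonzero coefficient.
(2) The nonzero polynomials over `ℤ` of degree at most `d` in each variable with coefficients at most `H` take at `v` a
value of absolute value more than `δ`. -/
def NoRelation {J : Type} (v : J → ℂ) {g : ℕ} (ξ : Fin g → ℂ) (F : Type) [Field F] [NumberField F] (ι : F →+* ℂ)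
    (d : ℕ) (H δ : ℝ) : Prop :=
  (∀ P : MvPolynomial J (MvPolynomial (Fin g) (𝓞 F)), (∀ j, P.degreeOf j ≤ d) →
    (∀ e y, (P.coeff e).degreeOf y ≤ d) → (∀ e s (φ : F →+* ℂ), ‖φ ((P.coeff e).coeff s : 𝓞 F)‖ ≤ H) →
    ∀ e, value ξ F ι (P.coeff e) ≠ 0 →
      δ * ‖value ξ F ι (P.coeff e)‖ <
        ‖MvPolynomial.eval₂ (MvPolynomial.eval₂Hom (ι.comp (algebraMap (𝓞 F) F)) ξ) v P‖) ∧
  ∀ P : MvPolynomial J ℤ, P ≠ 0 → (∀ j, P.degreeOf j ≤ d) → (∀ e, |((P.coeff e : ℤ) : ℝ)| ≤ H) →
    δ < ‖MvPolynomial.aeval v P‖

lemma noRelation_of {J : Type} {v : J → ℂ} {g : ℕ} {ξ : Fin g → ℂ} {F : Type} [Field F] [NumberField F]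
    {ι : F →+* ℂ} {d : ℕ} {A B T : ℝ} (hT : 0 < T) (h : ¬ Pool.Agent.X39.Near.Dep v ξ F ι d A B T) :
    NoRelation v ξ F ι d (T ^ A) (T ^ (-B)) := by
  refine ⟨fun P h1 h2 h3 e he => ?_, fun P hP hPd hPA =>
    Pool.Agent.X39.Near.int_of_not_dep h hT P hP hPd hPA⟩
  by_contra hcon
  rw [not_lt] at hcon
  exact h ⟨P, h1, h2, h3, e, he, hcon⟩

/-- **Theorem.** For any sequence of families of exponential points and any sequence `ξ` of complex numbers there is ONE
set `E` of complex numbers of Hausdorff dimension `0` with the following properties. (1) For all complex `x` outside `E`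
and all families of the sequence on a neighbourhood of `x`, all number fields `F` with an embedding `ι` in `ℂ`, all `g`,
`d`, `A` and `ω > 0` there are `B`, `T₁` such that for all `T ≥ T₁` and all `t ∈ F`, quotients of integers with conjugates
at most `T`, with `|ι t - x| ≤ T ^ (-ω)`, there is no relation between the coordinates `b_1, …, b_n` of the exponential
point at `t`. (2) For all irrational real `x` outside `E`, all these families and all `g`, `d`, `A` there is `B` such
that this holds over `ℚ` at the convergents `t` of `x`, at the level of the denominator, from some point on. -/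
theorem result (n : ℕ → ℕ) (U : ℕ → Set ℂ) (z : ∀ j, Fin (n j) → ℂ → ℂ) (b : ∀ j, Fin (n j) → Fin (n j) ⊕ Fin (n j))
    (h : ∀ j, Family (U j) (z j) (b j)) (ξ : ℕ → ℂ) :
    ∃ E : Set ℂ, dimH E = 0 ∧
      (∀ x : ℂ, x ∉ E → ∀ j : ℕ, x ∈ U j → ∀ (F : Type) [Field F] [NumberField F] (ι : F →+* ℂ)
        (g d A : ℕ) (ω : ℝ), 0 < ω → ∃ B T₁ : ℝ, ∀ T : ℝ, T₁ ≤ T → ∀ t : F, HeightLe F T t →
          ‖ι t - x‖ ≤ T ^ (-ω) →
          NoRelation (fun k => point (z j) (b j k) (ι t)) (fun i : Fin g => ξ i) F ι d (T ^ A) (T ^ (-B))) ∧
      ∀ x : ℝ, Irrational x → (x : ℂ) ∉ E → ∀ j : ℕ, (x : ℂ) ∈ U j → ∀ g d A : ℕ, ∃ (B : ℝ) (n₀ : ℕ),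
        ∀ k : ℕ, n₀ ≤ k →
          NoRelation (fun i => point (z j) (b j i) ((x.convergent k : ℚ) : ℂ)) (fun i : Fin g => ξ i) ℚ
            (algebraMap ℚ ℂ) d ((x.convergent k).den ^ A) ((x.convergent k).den ^ (-B)) := by
  classical
  have H : ∀ jg : ℕ × ℕ, ∃ E : Set ℂ, dimH E = 0 ∧
      (∀ x ∈ U jg.1, x ∉ E → ∀ (F : Type) [Field F] [NumberField F] (ι : F →+* ℂ)
        (d A : ℕ) (ω : ℝ), 0 < ω → ∃ B T₁ : ℝ, ∀ T : ℝ, T₁ ≤ T → ∀ t' : F, Pool.Agent.X39.Near.Size F T t' →
          ‖ι t' - x‖ ≤ T ^ (-ω) → ¬ Pool.Agent.X39.Near.Dep
            (fun k => point (z jg.1) (b jg.1 k) (ι t')) (fun i : Fin jg.2 => ξ i) F ι d A B T) ∧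
      ∀ x : ℝ, Irrational x → (x : ℂ) ∈ U jg.1 → (x : ℂ) ∉ E → ∀ d A : ℕ, ∃ (B : ℝ) (n₀ : ℕ), ∀ k : ℕ,
        n₀ ≤ k → ¬ Pool.Agent.X39.Near.Dep
          (fun k' => point (z jg.1) (b jg.1 k') ((x.convergent k : ℚ) : ℂ))
            (fun i : Fin jg.2 => ξ i) ℚ (algebraMap ℚ ℂ) d A B (x.convergent k).den := by
    rintro ⟨j, g⟩
    exact Pool.Agent.X39.Near.near_dep (U j) (h j).isOpen (fun k t => point (z j) (b j k) t)
      (fun k t' ht => Pool.Agent.Zk43.ExpOne.point_an (h j).analytic (b j k) t' ht)
      (fun t' ht => Pool.Agent.Zk43.ExpOne.exp_locInd (h j).isOpen (h j).isPreconnected (h j).analytic (h j).free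
        (h j).finite ht) (fun i : Fin g => ξ i)
  choose E hE0 hE1 hE2 using H
  refine ⟨⋃ jg, E jg, by rw [dimH_iUnion]; simp [hE0], fun x hx j hxj F _ _ ι g d A ω hω => ?_,
    fun x hx hxE j hxj g d A => ?_⟩
  · obtain ⟨B, T₁, h4⟩ := hE1 (j, g) x hxj (fun h => hx (Set.mem_iUnion.2 ⟨_, h⟩)) F ι d A ω hω
    refine ⟨B, max T₁ 1, fun T hT t ht htx => ?_⟩
    have hT0 : 0 < T := lt_of_lt_of_le one_pos ((le_max_right _ _).trans hT)
    have h5 := noRelation_of hT0 (h4 T ((le_max_left _ _).trans hT) t ht htx)
    rw [Real.rpow_natCast] at h5
    exact h5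
  · obtain ⟨B, n₀, h4⟩ := hE2 (j, g) x hx hxj (fun h => hxE (Set.mem_iUnion.2 ⟨_, h⟩)) d A
    refine ⟨B, n₀, fun k hk => ?_⟩
    have hT0 : (0 : ℝ) < (x.convergent k).den := by exact_mod_cast (x.convergent k).pos
    have h5 := noRelation_of hT0 (h4 k hk)
    rw [Real.rpow_natCast] at h5
    exact h5

end Pool.Agent.Results.MP_209724_lc.GenericNearEveryNumber
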