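import Mathlib
import Pool.Agent.Zk44.UQ.Powers

/-!
# Schanuel's conjecture for raising to algebraic powers, up to the number of additions

Let `V` be a linear space over `ℚ` of complex numbers of dimension `N` which is contained in a linear space
of dimension `n` over the algebraic numbers, for example a linear space of dimension `n` over a number field
`K` of degree `d`, where `N = d n`. Let `t_1, …, t_g` be complex numbers. The axiom (SC) (Schanuel's
conjecture) says that the transcendence degree of `ℚ(V, e^V, t)` is at least `N`, so that at least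
`N - n - g` of the numbers `e^z`, where `z` runs over a basis of `V`, are algebraically independent over
`ℚ(t_1, …, t_g)`. For number fields `K` these are the structures of raising to powers in `K`.

For `L ≥ 0` consider the polynomials of any degree which can be computed from the variables, the numbers
`t_1, …, t_g` and algebraic numbers with at most `L` additions and arbitrarily many multiplications.

**Theorem.** Let `V` be any linear space over `ℚ` which is contained in a linear space of finite dimension
`n` over the algebraic numbers. There are linearly independent `z_j` in `V` which span `V` together with at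
most `n + g + L` further numbers, such that no nonzero polynomial which is computed from the variables, the
numbers `t_1, …, t_g` and algebraic numbers with at most `L` additions vanishes at different numbers
`e^{z_j}`.

If `V` is a linear space of dimension `n` over a number field `K` of degree `d` these are at least
`(d - 1) n - g - L` numbers `e^{z_j}` (second part of the theorem); (SC) predicts `(d - 1) n - g`, for all `L`
at once. So the Schanuel inequality for raising to powers in `K` holds up to the constant `L` for the
relations with at most `L` additions. There is no hypothesis on `V` and on the `t_i`. For `V = K λ`, where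
`e^λ = a` is algebraic, the theorem is about the powers `a^β`, `β ∈ K`, of the problem of Gel'fond and
Schneider.

The proof. By the theorem of Baker the subspace of the logarithms of algebraic numbers in `V` has dimension
at most `n` over `ℚ`. On a complement no nonzero `z` is the logarithm of an algebraic number. It is shown
(`Pool.Agent.Zk44.UP.poly_expo`) that, for independent `x_1, …, x_M` in such a complement with `M > g + L`,
there is a nonzero polynomial `f` in `M` variables such that `f(b) = 0` for all rational points `b` such that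
`e^{∑ b_i x_i}` satisfies a nontrivial relation with at most `L` additions over `t_1, …, t_g`; otherwise in a
suitable ultrapower `K` of `ℂ` there is a number `Y = e^{∑ b_i x_i}` of this kind with `b_1, …, b_M`
algebraically independent over `ℂ`, and the connection `(∇ ω)(D) = Δ (ω(D)) - ω([Δ, D])` on the functionals
on the derivations of `K` over `ℂ` shows that `∇(dY/Y) = ∑ l_i db_i`, `l_i = Δ(e^{x_i}) / e^{x_i}`, is a
combination of `g + L` horizontal forms with coefficients in logarithmic derivatives, while the `l_i` are
independent over the algebraic numbers (theorems of Ax and Rosenlicht).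
-/

set_option autoImplicit false

namespace Pool.Agent.Results.MP_209724_lc.RaisingToPowers

open Pool.Agent.R351

/-- The polynomials `G 0, …, G (L - 1)` are computed with one addition each: `G l` is the sum of two
products of powers of the variables, of the numbers `t o`, of the earlier polynomials
`G 0, …, G (l - 1)`, and of an algebraic number. -/
def Computed {g m : ℕ} (t : Fin g → ℂ) (L : ℕ) (G : ℕ → MvPolynomial (Fin m) ℂ) : Prop :=
  ∃ (c : ℕ → Bool → algebraicClosure ℚ ℂ) (u : ℕ → Bool → Fin g → ℕ) (a : ℕ → Bool → Fin m → ℕ)
    (h : ℕ → Bool → ℕ → ℕ), ∀ l < L, G l = ∑ b : Bool,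
      MvPolynomial.C ((c l b : ℂ) * ∏ o, t o ^ u l b o) * (∏ i, MvPolynomial.X i ^ a l b i) *
        ∏ l' ∈ Finset.range l, G l' ^ h l b l'

/-- No nonzero polynomial which is computed from the variables and the numbers `t o` with at most `L`
additions vanishes at different members of the family `y`. -/
def NoRelation {g : ℕ} (t : Fin g → ℂ) (L : ℕ) {ι : Type} (y : ι → ℂ) : Prop :=
  ∀ (m : ℕ) (σ : Fin m → ι), Function.Injective σ →
    ∀ G : ℕ → MvPolynomial (Fin m) ℂ, Computed t L G →
      ∀ j < L, G j ≠ 0 → MvPolynomial.eval (fun i => y (σ i)) (G j) ≠ 0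

theorem Computed.cmp {g m : ℕ} {t : Fin g → ℂ} {L : ℕ} {G : ℕ → MvPolynomial (Fin m) ℂ}
    (h : Computed t L G) : Cmp (algebraicClosure ℚ ℂ) (btm m t) L G := by
  obtain ⟨c, u, a, e, h⟩ := h
  refine ⟨c, fun l b j => Sum.elim (u l b) (a l b) j, e, fun l hl => ?_⟩
  rw [h l hl]
  refine Finset.sum_congr rfl fun b _ => ?_
  rw [Fintype.prod_sum_type, Algebra.smul_def, IsScalarTower.algebraMap_apply
    (algebraicClosure ℚ ℂ) ℂ (MvPolynomial (Fin m) ℂ)]
  unfold btm
  simp only [Sum.elim_inl, Sum.elim_inr, map_mul, map_prod, map_pow, MvPolynomial.algebraMap_eq]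
  have h1 : algebraMap (algebraicClosure ℚ ℂ) ℂ (c l b) = (c l b : ℂ) := rfl
  rw [h1]
  ring

/-- the first part -/
theorem part_one {g : ℕ} (L : ℕ) (t : Fin g → ℂ) (V : Submodule ℚ ℂ)
    (U : Submodule (algebraicClosure ℚ ℂ) ℂ) (hU : Module.Finite (algebraicClosure ℚ ℂ) U)
    (hVU : ∀ v ∈ V, v ∈ U) :
    ∃ (ι : Type) (z : ι → ℂ) (s : Finset ℂ),
      s.card ≤ Module.finrank (algebraicClosure ℚ ℂ) U + g + L ∧
      LinearIndependent ℚ z ∧ Submodule.span ℚ (Set.range z ∪ s) = V ∧
      NoRelation t L (fun i => Complex.exp (z i)) := by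
  obtain ⟨ι, z, s, h1, h2, h3, h4⟩ := Pool.Agent.Zk44.UQ.powers L t V U hVU
  exact ⟨ι, z, s, h1, h2, h3, fun m σ hσ G hG j hj hG0 h0 => hG0 (h4 m σ hσ G hG.cmp j hj h0)⟩

/-- the second part -/
theorem part_two {g : ℕ} (L : ℕ) (t : Fin g → ℂ) (K : IntermediateField ℚ ℂ)
    (hK : Module.Finite ℚ K) (V : Submodule K ℂ) (hV : Module.Finite K V) :
    ∃ z : Fin ((Module.finrank ℚ K - 1) * Module.finrank K V - g - L) → ℂ, (∀ j, z j ∈ V) ∧
      LinearIndependent ℚ z ∧ NoRelation t L (fun j => Complex.exp (z j)) := by
  classical
  set d := Module.finrank ℚ K with hd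
  set n := Module.finrank K V with hn
  -- the space over the algebraic numbers
  let b := Module.finBasis K V
  let U : Submodule (algebraicClosure ℚ ℂ) ℂ :=
    Submodule.span (algebraicClosure ℚ ℂ) (Set.range fun i => (b i : ℂ))
  have hUf : Module.Finite (algebraicClosure ℚ ℂ) U :=
    FiniteDimensional.span_of_finite _ (Set.finite_range _)
  have hUn : Module.finrank (algebraicClosure ℚ ℂ) U ≤ n :=
    (finrank_range_le_card _).trans (by rw [Fintype.card_fin])
  have hKalg : ∀ k : K, (k : ℂ) ∈ algebraicClosure ℚ ℂ := by
    intro k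
    rw [mem_algebraicClosure_iff]
    have h1 : IsAlgebraic ℚ k := Algebra.IsAlgebraic.isAlgebraic k
    exact h1.algebraMap
  have hVU : ∀ v ∈ V.restrictScalars ℚ, v ∈ U := by
    intro v hv
    have h1 := b.sum_repr ⟨v, hv⟩
    have h2 := congrArg V.subtype h1
    rw [map_sum] at h2
    have h3 : (∑ i, V.subtype ((b.repr ⟨v, hv⟩ i) • b i)) = v := h2
    rw [← h3]
    refine Submodule.sum_mem _ fun i _ => ?_
    have h4 : V.subtype ((b.repr ⟨v, hv⟩ i) • b i) =
        (⟨_, hKalg (b.repr ⟨v, hv⟩ i)⟩ : algebraicClosure ℚ ℂ) • (b i : ℂ) := by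
      rw [map_smul]
      rfl
    rw [h4]
    exact U.smul_mem _ (Submodule.subset_span ⟨i, rfl⟩)
  have hVfin : Module.Finite ℚ V := Module.Finite.trans K V
  have hVd : Module.finrank ℚ V = d * n := (Module.finrank_mul_finrank ℚ K V).symm
  obtain ⟨ι, z, s, h1, h2, h3, h4⟩ := part_one L t (V.restrictScalars ℚ) U hUf hVU
  have hVfin' : Module.Finite ℚ (V.restrictScalars ℚ) := hVfin
  have hzV : ∀ i, z i ∈ V := by
    intro i
    have h5 : z i ∈ V.restrictScalars ℚ := by
      rw [← h3]
      exact Submodule.subset_span (Or.inl ⟨i, rfl⟩)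
    exact h5
  have hli : LinearIndependent ℚ (fun i => (⟨z i, hzV i⟩ : V.restrictScalars ℚ)) :=
    LinearIndependent.of_comp (V.restrictScalars ℚ).subtype h2
  have hfin : Finite ι := hli.finite
  have : Fintype ι := Fintype.ofFinite ι
  have hcard : d * n ≤ Fintype.card ι + (n + g + L) := by
    have h5 : Module.finrank ℚ (V.restrictScalars ℚ) = d * n := hVd
    rw [← h5, ← h3]
    have h6 : (Set.range z ∪ (s : Set ℂ)) = ((Finset.univ.image z ∪ s : Finset ℂ) : Set ℂ) := by
      rw [Finset.coe_union, Finset.coe_image, Finset.coe_univ, Set.image_univ]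
    rw [h6]
    refine (finrank_span_finset_le_card _).trans ((Finset.card_union_le _ _).trans ?_)
    have h7 : (Finset.univ.image z).card ≤ Fintype.card ι := Finset.card_image_le
    omega
  have hle : (d - 1) * n - g - L ≤ Fintype.card ι := by
    have h5 : (d - 1) * n = d * n - n := Nat.sub_one_mul d n
    omega
  let e : Fin ((d - 1) * n - g - L) → ι := fun j => (Fintype.equivFin ι).symm (Fin.castLE hle j)
  have he : Function.Injective e := (Fintype.equivFin ι).symm.injective.comp (Fin.castLE_injective hle)
  refine ⟨fun j => z (e j), fun j => hzV _, h2.comp e he, ?_⟩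
  exact fun m σ hσ => h4 m (fun j => e (σ j)) (he.comp hσ)

/-- **Main result.** -/
theorem result (g L : ℕ) (t : Fin g → ℂ) :
    (∀ (V : Submodule ℚ ℂ) (U : Submodule (algebraicClosure ℚ ℂ) ℂ),
      Module.Finite (algebraicClosure ℚ ℂ) U → (∀ v ∈ V, v ∈ U) →
      ∃ (ι : Type) (z : ι → ℂ) (s : Finset ℂ),
        s.card ≤ Module.finrank (algebraicClosure ℚ ℂ) U + g + L ∧
        LinearIndependent ℚ z ∧ Submodule.span ℚ (Set.range z ∪ s) = V ∧
        NoRelation t L (fun i => Complex.exp (z i))) ∧
    ∀ (K : IntermediateField ℚ ℂ), Module.Finite ℚ K → ∀ (V : Submodule K ℂ), Module.Finite K V →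
      ∃ z : Fin ((Module.finrank ℚ K - 1) * Module.finrank K V - g - L) → ℂ, (∀ j, z j ∈ V) ∧
        LinearIndependent ℚ z ∧ NoRelation t L (fun j => Complex.exp (z j)) :=
  ⟨fun V U hU hVU => part_one L t V U hU hVU, fun K hK V hV => part_two L t K hK V hV⟩

end Pool.Agent.Results.MP_209724_lc.RaisingToPowers
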