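import Mathlib
import Pool.Agent.Zk44.UP.PhiPair

/-!
# Schanuel's axiom for relations which are computed with few additions, up to a constant

For `t = (t_1, …, t_g)` in `ℂ ^ g` let `E(t)` be the set of all complex numbers `z` such that `z` and `e^z`
are algebraic over `ℚ(t)`. This is a linear space over `ℚ`, and Schanuel's conjecture, which is the axiom
(SC) for the complex exponential field, is equivalent to: `dim E(t) ≤ g` for all `g` and `t`. In other
words, for all `t` there is a `ℚ`-linear map `φ : ℂ → ℚ ^ g` such that for every nonzero `z` with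
`φ(z) = 0` one of the numbers `z`, `e^z` satisfies no relation over `ℚ(t)`. We prove this for relations
with at most `L` additions, with a loss `L ^ 2 + 4 L + 1` of the dimension which depends only on `L`.

**Theorem.** Let `L ≥ 0` and `t_1, …, t_g` be complex numbers. There is a `ℚ`-linear map
`φ : ℂ → ℚ ^ c`, `c = g + L ^ 2 + 4 L + 1`, such that for EVERY complex number `z ≠ 0` with `φ(z) = 0` no
nonzero polynomial in one variable, of any degree, which can be computed from the variable, the numbers
`t_1, …, t_g` and algebraic numbers with at most `L` additions and arbitrarily many multiplications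
vanishes at `z`, or no such polynomial vanishes at `e^z`.

There are no exceptions, nothing is averaged, the numbers `t` are arbitrary, and the dependence on `g` is
the one of the conjecture.

The proof. There is a derivation `Δ` of `ℂ` with the algebraic numbers as constants such that every closed
form `dx + ∑ c_j du_j / u_j` with algebraic `c_j` which vanishes at `Δ` vanishes at all derivations of `ℂ`
(`Pool.Agent.Zk44.SC.exists_shift`). By theorems of Rosenlicht and Baker logarithmic derivatives are not
derivatives (`Pool.Agent.Zk44.UP.propP_of`), and the pairs `(x_i, l_i)`, `l_i = Δ(e^{x_i}) / e^{x_i}`, are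
jointly linearly independent over the algebraic numbers for linearly independent `x_i`. The map `φ` is
chosen on the elements of a basis one after the other (`Pool.Agent.Zk44.DT.exists_phi`); if a value cannot
be chosen then for all rational `w` in `ℚ ^ c` there is a bad number `z = ∑ b_i x_i` such that the `w_j` are
rational functions of `b`. In an ultrapower `K` of `ℂ` this gives a bad number `z` such that
`w_1, …, w_c` are algebraically independent over `ℂ`. On the space of the functions on the derivations `D`
of `K` over `ℂ` there is the connection `(∇ ω)(D) = Δ (ω(D)) - ω([Δ, D])`. The forms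
`dE/E - a dz/z - ∑ h dG/G` of the summands `E = c z ^ a ∏ t ^ u ∏ G ^ h` of the computation and the
differentials of the exponents `a`, `h` are `L ^ 2 + 3 L` forms; `dz` is a linear combination of them, and
they are mapped by `∇` to combinations `∑ ϑ_i η_i` of horizontal forms `η_i` with logarithmic derivatives
`ϑ_i`. It follows that `dz = ∑ x_i db_i` is a combination of `L ^ 2 + 3 L` horizontal forms. The same
functionals for the computation which vanishes at `e^z` show that `∇(dY/Y) = ∑ l_i db_i`, `Y = e^z`, is a
combination of `g + L` horizontal forms (`Pool.Agent.Zk44.UP.exists_horizontal_two`). Taking derivatives,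
the joint independence of the pairs `(x_i, l_i)` gives that all `db_i`, and hence `dw_1, …, dw_c`, are
combinations of `L ^ 2 + 3 L + g + L < c` forms, a contradiction.
-/

set_option autoImplicit false

namespace Pool.Agent.Results.MP_209724_lc.SchanuelUpToConstant

open Pool.Agent.R351

/-- The polynomials `G 0, …, G (L - 1)` are computed with one addition each: `G l` is the sum of two
products of powers of the variables, of the numbers `t o`, of the earlier polynomials
`G 0, …, G (l - 1)`, and of an algebraic number. -/
def Computed {g m : ℕ} (t : Fin g → ℂ) (L : ℕ) (G : ℕ → MvPolynomial (Fin m) ℂ) : Prop :=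
  ∃ (c : ℕ → Bool → algebraicClosure ℚ ℂ) (u : ℕ → Bool → Fin g → ℕ) (a : ℕ → Bool → Fin m → ℕ)
    (h : ℕ → Bool → ℕ → ℕ), ∀ l < L, G l = ∑ b : Bool,
      MvPolynomial.C ((c l b : ℂ) * ∏ o, t o ^ u l b o) * (∏ i, MvPolynomial.X i ^ a l b i) *
        ∏ l' ∈ Finset.range l, G l' ^ h l b l'

/-- No nonzero polynomial which is computed from the variables and the numbers `t o` with at most `L`
additions vanishes at `y`. -/
def NoRelation {g m : ℕ} (t : Fin g → ℂ) (L : ℕ) (y : Fin m → ℂ) : Prop :=
  ∀ G : ℕ → MvPolynomial (Fin m) ℂ, Computed t L G →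
    ∀ j < L, G j ≠ 0 → MvPolynomial.eval y (G j) ≠ 0

theorem Computed.cmp {g m : ℕ} {t : Fin g → ℂ} {L : ℕ} {G : ℕ → MvPolynomial (Fin m) ℂ}
    (h : Computed t L G) : Cmp (algebraicClosure ℚ ℂ) (btm m t) L G := by
  obtain ⟨c, u, a, e, h⟩ := h
  refine ⟨c, fun l b j => Sum.elim (u l b) (a l b) j, e, fun l hl => ?_⟩
  rw [h l hl]
  refine Finset.sum_congr rfl fun b _ => ?_
  rw [Fintype.prod_sum_type, Algebra.smul_def, IsScalarTower.algebraMap_apply
    (algebraicClosure ℚ ℂ) ℂ (MvPolynomial (Fin m) ℂ)]
  unfold btm
  simp only [Sum.elim_inl, Sum.elim_inr, map_mul, map_prod, map_pow, MvPolynomial.algebraMap_eq]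
  have h1 : algebraMap (algebraicClosure ℚ ℂ) ℂ (c l b) = (c l b : ℂ) := rfl
  rw [h1]
  ring

theorem NoRelation.of_good {g L : ℕ} {t : Fin g → ℂ} {y : ℂ}
    (h : Good1 (algebraicClosure ℚ ℂ) t L y) : NoRelation t L ![y] := by
  have hinf : Infinite (algebraicClosure ℚ ℂ) := Pool.Agent.Zk44.DT.infinite_QB
  have h1 : GoodT (algebraicClosure ℚ ℂ) t L ![y] := goodT_cons h (goodT_zero _ _)
  exact fun G hG j hj hG0 h0 => hG0 (h1 G hG.cmp j hj h0)

/-- **Main result.** -/
theorem result (g L : ℕ) (t : Fin g → ℂ) :
    ∃ φ : ℂ →ₗ[ℚ] (Fin (g + L ^ 2 + 4 * L + 1) → ℚ), ∀ z : ℂ, z ≠ 0 → φ z = 0 →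
      NoRelation t L ![z] ∨ NoRelation t L ![Complex.exp z] := by
  obtain ⟨φ, hφ⟩ := Pool.Agent.Zk44.UP.phi_pair_up L t (g + L ^ 2 + 4 * L + 1) (by
    have h1 : L * (L + 4) = L ^ 2 + 4 * L := by ring
    omega)
  exact ⟨φ, fun z hz hz0 => (hφ z hz hz0).imp NoRelation.of_good NoRelation.of_good⟩

end Pool.Agent.Results.MP_209724_lc.SchanuelUpToConstant
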